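import Pool.Agent.Run7.h527.TP.S
import Pool.Agent.Results.MP_154526_nt.MultiplicativeValues

/-!
# MP_154526_nt: multiple zeta values with arguments near aliquot sums, cototients and arithmetic derivatives

A pattern in `k` variables is a list of letters `b + u_1 s_1 + ... + u_k s_k` with natural numbers `b`, `u_j`; at a
tuple `s` of natural numbers it gives an index. The first letters may be constant, of arbitrary weight, such as in
`ζ(5, 1, s_1, 3, s_1 + s_2)`. Let `w_1, ..., w_r` be admissible patterns in `k` variables and `x_1, ..., x_t` arbitrary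
complex numbers, for instance `π`, `log 2`, or arbitrary multiple zeta values.

Let each of `F_1(m), ..., F_k(m)` be the sum of the proper divisors of `m`, the cototient `m - φ(m)`, the arithmetic derivative
`m'` (with `p' = 1` for primes and Leibniz' rule), or a positive combination `α m + β f(m)` with `f = σ`, `φ` or the arithmetic
derivative.

(1) Let `0 ≤ θ`, `τ ≤ 1`, `k (θ + 1 - τ) < 1` (for `k = 1`: `θ < τ`; for `k = 2`: `τ > 1 / 2 + θ`). For all `m` in `[1, N]^k`
such that every `m_i` has two prime factors `p ≠ q`, not dividing `m_i / (p q) ≥ 2`, with `p q ≥ m_i^τ`, but at most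
`N^(k - δ)` of them, for ALL tuples `s` with `|s_i - F_i(m_i)| ≤ F_i(m_i)^θ` and all `T` with `T ≤ s_i ≤ κ T` for all `i`, EVERY
polynomial relation of degree at most `D` with integer coefficients of absolute value at most `C ^ T` between the `x_j` and
the multiple zeta values `ζ(w_1(s)), ..., ζ(w_r(s))` is a consequence of the stuffle product and of the algebraic relations
between the `x_j` and the multiple zeta values of the fronts.

(2) One variable: for every `ε > 0` there is `θ > 0` such that for ALL `m ≤ N` but `ε N`, for ALL integers `s ≥ 1` with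
`|s - F(m)| ≤ F(m)^θ`, the same holds for the relations with coefficients at most `C ^ s`.

Proof. Write `m = j p q`. Then `F(m) = a p q + b (p + q) + c` with integers `a ≠ 0`, `b`, `c` which depend on `j` only, and
`(a p + b) (a q + b) = a F(m) + b² - a c`. So for given `j ≤ N^(1 - τ)` every value is taken for at most `N^ε` pairs `p`, `q`
(the tool `Run7/h527/TP`). The exceptional tuples of all scales (starting theorem `ExceptionalTuples`) together with their
windows have a power saving. For small `τ` all but `ε N` integers have two such primes, by the second moment of the number of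
the prime factors in `(N^(τ / 2), N^(1 / 8))`.
-/

set_option autoImplicit false

namespace Pool.Agent.Results.MP_154526_nt.AliquotSums

open Pool.Agent.Results.MP_154526_nt.ExceptionalTuples
  (mzv Letter index AdmissiblePattern IsConsequence exceptional)
open Pool.Agent.Results.MP_154526_nt.MultiplicativeValues (OnlyConsequences only_mono exceptional_eq pow_bound)
open Run7.h527.TP (Bil Two keep_scales keep_one aliquot cototient deriv sig comb)

/-- (1) Let `w_1, ..., w_r` be admissible patterns in `k ≥ 1` variables, `D`, `κ` natural numbers, `C` a real number,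
`x_1, ..., x_t` complex numbers, `F_1, ..., F_k` functions of the class `Bil`, `θ ≥ 0`, `τ ≤ 1`, `k (θ + 1 - τ) < 1`. There is
`δ > 0` such that for all large `N` and all tuples `m` of integers in `[1, N]` with `Two τ (m_i)` for all `i` but at most
`N^(k - δ)` of them: for ALL tuples `s` of natural numbers with `|s_i - F_i(m_i)| ≤ F_i(m_i)^θ` and all `T ≥ 1` with
`T ≤ s_i ≤ κ T` for all `i`, every polynomial relation of degree at most `D` with integer coefficients of absolute value at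
most `C ^ T` between the `x_j` and the multiple zeta values `ζ(w_i(s))` is a consequence of the stuffle product and of the
algebraic relations between the `x_j` and the multiple zeta values of the fronts. (2) For every `ε > 0` there is `θ > 0` such
that for all patterns in one variable, `D`, `C`, `x` and all `F` of the class `Bil`, for all large `N` and ALL `m ≤ N` but at
most `ε N` of them this holds for all integers `s ≥ 1` with `|s - F(m)| ≤ F(m)^θ` and coefficients at most `C ^ s`. (3) The sum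
of the proper divisors, the cototient, the arithmetic derivative and their positive combinations with the identity are in
`Bil`. -/
theorem result :
    (∀ {k r : ℕ} (t : ℕ), 1 ≤ k → ∀ w : Fin r → List (Letter k), (∀ i, AdmissiblePattern (w i)) → ∀ (D κ : ℕ) (C : ℝ)
      (x : Fin t → ℂ) (F : Fin k → ℕ → ℕ), (∀ i, Bil (F i)) → ∀ θ τ : ℝ, 0 ≤ θ → τ ≤ 1 → k * (θ + 1 - τ) < 1 →
      ∃ δ : ℝ, 0 < δ ∧ ∃ N₀ : ℕ, ∀ N : ℕ, N₀ ≤ N →
      ({m : Fin k → ℕ | (∀ i, 1 ≤ m i ∧ m i ≤ N ∧ Two τ (m i)) ∧ ¬ ∀ (s : Fin k → ℕ) (T : ℕ), 1 ≤ T →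
        (∀ i, T ≤ s i ∧ s i ≤ κ * T) → (∀ i, |(s i : ℝ) - F i (m i)| ≤ (F i (m i) : ℝ) ^ θ) →
          OnlyConsequences w x D (C ^ T) s}.ncard : ℝ) ≤ (N : ℝ) ^ ((k : ℝ) - δ)) ∧
    (∀ ε : ℝ, 0 < ε → ∃ θ : ℝ, 0 < θ ∧ ∀ {r : ℕ} (t : ℕ) (w : Fin r → List (Letter 1)), (∀ i, AdmissiblePattern (w i)) →
      ∀ (D : ℕ) (C : ℝ) (x : Fin t → ℂ) (F : ℕ → ℕ), Bil F → ∃ N₀ : ℕ, ∀ N : ℕ, N₀ ≤ N →
      ({m : ℕ | 1 ≤ m ∧ m ≤ N ∧ ¬ ∀ s : ℕ, 1 ≤ s → |(s : ℝ) - F m| ≤ (F m : ℝ) ^ θ →
          OnlyConsequences w x D (C ^ s) (fun _ => s)}.ncard : ℝ) ≤ ε * N) ∧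
    Bil aliquot ∧ Bil cototient ∧ Bil deriv ∧
      (∀ α β : ℤ, (∀ m : ℕ, 2 ≤ m → 0 < α * m + β * sig m) → Bil (comb α β sig)) ∧
      (∀ α β : ℤ, (∀ m : ℕ, 2 ≤ m → 0 < α * m + β * Nat.totient m) → Bil (comb α β Nat.totient)) ∧
      ∀ α β : ℤ, (∀ m : ℕ, 2 ≤ m → 0 < α * m + β * deriv m) → Bil (comb α β deriv) := by
  refine ⟨fun {k r} t hk w hw D κ C x F hF θ τ hθ hτ hθk => ?_, fun ε hε => ?_, Run7.h527.TP.examples⟩
  · obtain ⟨K, hK⟩ := ExceptionalTuples.result t w hw D (2 * κ)
    obtain ⟨N₁, hN₁⟩ := hK ((max |C| 1) ^ 2) x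
    obtain ⟨δ, hδ, N₀, hN₀⟩ := keep_scales hk κ (fun T s => ¬ OnlyConsequences w x D (C ^ T) s)
      (fun N s => ¬ OnlyConsequences w x D (((max |C| 1) ^ 2) ^ N) s)
      (fun N T s h1 h2 h3 h4 => h3 (only_mono w x D (pow_bound C h2.le) s h4))
      ⟨K, N₁, fun N hN => by
        rw [exceptional_eq]
        exact hN₁ N hN⟩ hF hθ hτ hθk
    refine ⟨δ, hδ, N₀, fun N hN => le_trans (le_of_eq ?_) (hN₀ N hN)⟩
    simp only [not_not]
  · obtain ⟨θ, hθ, h⟩ := keep_one ε hε
    refine ⟨θ, hθ, fun {r} t w hw D C x F hF => ?_⟩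
    obtain ⟨K, hK⟩ := ExceptionalTuples.result t w hw D (2 * 1)
    obtain ⟨N₁, hN₁⟩ := hK ((max |C| 1) ^ 2) x
    obtain ⟨N₀, hN₀⟩ := h 1 (fun T s => ¬ OnlyConsequences w x D (C ^ T) s)
      (fun N s => ¬ OnlyConsequences w x D (((max |C| 1) ^ 2) ^ N) s)
      (fun N T s h1 h2 h3 h4 => h3 (only_mono w x D (pow_bound C h2.le) s h4))
      ⟨K, N₁, fun N hN => by
        rw [exceptional_eq]
        exact hN₁ N hN⟩ F hF
    refine ⟨N₀, fun N hN => le_trans ?_ (hN₀ N hN)⟩
    have hsub : {m : ℕ | 1 ≤ m ∧ m ≤ N ∧ ¬ ∀ s : ℕ, 1 ≤ s → |(s : ℝ) - F m| ≤ (F m : ℝ) ^ θ →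
        OnlyConsequences w x D (C ^ s) (fun _ => s)} ⊆ {m : ℕ | 1 ≤ m ∧ m ≤ N ∧ ¬ ∀ (s : Fin 1 → ℕ) (T : ℕ), 1 ≤ T →
        (∀ i, T ≤ s i ∧ s i ≤ 1 * T) → (∀ i, |(s i : ℝ) - F m| ≤ (F m : ℝ) ^ θ) →
          ¬ ¬ OnlyConsequences w x D (C ^ T) s} := by
      rintro m ⟨h1, h2, h3⟩
      refine ⟨h1, h2, fun h4 => h3 fun s hs hw' => ?_⟩
      exact not_not.1 (h4 (fun _ => s) s hs (fun _ => ⟨le_rfl, (one_mul s).ge⟩) (fun _ => hw'))
    exact_mod_cast Set.ncard_le_ncard hsub ((Set.finite_Icc 1 N).subset fun m hm => ⟨hm.1, hm.2.1⟩)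

end Pool.Agent.Results.MP_154526_nt.AliquotSums
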