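import Pool.Agent.Run7.h467.GA.One
import Pool.Agent.Results.MP_154526_nt.ExceptionalTuples

/-!
# MP_154526_nt: multiple zeta values at the entries of all good rational approximations have only stuffle relations, modulo
# constant multiple zeta values

A pattern in `k` variables is a list of letters `b + u_1 s_1 + ... + u_k s_k` with natural numbers `b`, `u_j`; at a
tuple `s` of natural numbers it gives an index. The first letters may be constant, of arbitrary weight, such as in
`ζ(5, 1, s_1, 3, s_1 + s_2)`. The fronts of the pattern are the nonempty initial segments of the list of its constant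
first letters. Let `x_1, ..., x_t` be arbitrary complex numbers, for instance `π`, `log 2`, or arbitrary multiple zeta values.

Let `α` be a point of `ℝ ^ d`, and let `(p, q)`, `p ∈ ℤ ^ d`, run through its approximations with
`|α_i - p_i / q| ≤ c q ^ (-1-σ)`; by Dirichlet's theorem there are infinitely many for `σ = 1 / d`, `c = 1`, for every `α`.
We consider ALL tuples `s` of `k ≤ d + 1` natural numbers of the same order of magnitude which are small linearly independent
combinations `u_j · p + v_j q` of the entries of such an approximation, up to small errors: with coefficients at most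
`c q ^ η` and errors at most `c q ^ θ`. For example `s = (q, p_1, ..., p_d)` or `s = (p_1, ..., p_d)`, with errors at most `c`.

Theorem. For all `α` but a set of Hausdorff dimension at most `(d + (k (d + 2) - 1) η + k θ) / (1 + σ)`, for all admissible
patterns in `k` variables and all `D`, `C`, `c`, for all but finitely many `(p, q)` and all these tuples `s`: EVERY polynomial
relation of degree at most `D` with integer coefficients of absolute value at most `C ^ q` between the `x_j` and the multiple
zeta values `ζ(w_1(s)), ..., ζ(w_r(s))` is a consequence of the stuffle product and of the algebraic relations between the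
`x_j` and the multiple zeta values of the (finitely many, constant) fronts. So for these tuples a linear relation between
multiple zeta values and products of them can only fail to follow from the stuffle relations if a relation between the fronts
does. For `σ = 1 / d` the bound is smaller than `d` if `(k (d + 2) - 1) η + k θ < 1`; it is `d ^ 2 / (d + 1)` for `η = θ = 0`.

`ExceptionalTuples` bounds the number of the exceptional tuples in `[N, κ N] ^ k` by `K N ^ (k - 1)`,
`ArgumentsAlongRealTuples` treats the tuples near `N ξ`, `N` in a sparse set `M`. Here the tuples come from a very thin set of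
vectors which depends on `α`; the size of the set of the exceptional `α` is estimated by the Hausdorff-Cantelli lemma, after a
count of the vectors `(q, p)` for which some independent small forms are near an exceptional tuple
(`Pool.Agent.Run7.h467.GA`).
-/

set_option autoImplicit false

open Filter MeasureTheory

namespace Pool.Agent.Results.MP_154526_nt.GoodApproximations

open ExceptionalTuples (mzv Letter index AdmissiblePattern IsConsequence exceptional)

/-- The members of the tuple `s` are at distance at most `c q ^ θ` from the values `u_j · p + v_j q` of linearly independent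
integral linear forms with coefficients at most `c q ^ η`. -/
def NearForms {d k : ℕ} (η θ c : ℝ) (p : Fin d → ℤ) (q : ℕ) (s : Fin k → ℕ) : Prop :=
  ∃ (u : Fin k → Fin d → ℤ) (v : Fin k → ℤ),
    (∀ a : Fin k → ℤ, (∀ i, ∑ j, a j * u j i = 0) → ∑ j, a j * v j = 0 → a = 0) ∧
    (∀ j i, |(u j i : ℝ)| ≤ c * (q : ℝ) ^ η) ∧ (∀ j, |(v j : ℝ)| ≤ c * (q : ℝ) ^ η) ∧
    ∀ j, |(s j : ℝ) - (∑ i, (u j i : ℝ) * p i + v j * q)| ≤ c * (q : ℝ) ^ θ

/-- For all `C`, `c` and all but finitely many approximations `(p, q)` of `α` with `|α_i - p_i / q| ≤ c q ^ (-1-σ)` the property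
`E (C ^ q)` fails for all tuples `s` of natural numbers near independent small forms in `(p, q)`, with `s_i ≤ c s_j` and
`q ≤ c s_j` for all `i`, `j`. -/
def Holds {d k : ℕ} (σ η θ : ℝ) (E : ℝ → (Fin k → ℕ) → Prop) (α : Fin d → ℝ) : Prop :=
  ∀ C c : ℝ, ∃ Q : ℕ, ∀ (p : Fin d → ℤ) (q : ℕ), Q ≤ q → (∀ i, |α i - p i / q| ≤ c / (q : ℝ) ^ (1 + σ)) →
    ∀ s : Fin k → ℕ, (∀ i j, (s i : ℝ) ≤ c * s j) → (∀ j, (q : ℝ) ≤ c * s j) → NearForms η θ c p q s → ¬ E (C ^ q) s

/-- At the tuple `s` there is a relation, of degree at most `D` and with coefficients at most `H`, between the numbers `x` and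
the multiple zeta values of the patterns `w` which is not a consequence of the stuffle product and of the relations between `x`
and the multiple zeta values of the fronts. -/
def NotConsequence {k r t : ℕ} (w : Fin r → List (Letter k)) (x : Fin t → ℂ) (D : ℕ) (H : ℝ) (s : Fin k → ℕ) : Prop :=
  ∃ P : MvPolynomial (Fin t ⊕ Fin r) ℤ, P.totalDegree ≤ D ∧ (∀ m, |((P.coeff m : ℤ) : ℝ)| ≤ H) ∧
    MvPolynomial.aeval (Sum.elim x fun i => ((mzv (index s (w i)) : ℝ) : ℂ)) P = 0 ∧ ¬ IsConsequence w x s P

/-- **Theorem.** Let `x_1, ..., x_t` be complex numbers, `k ≥ 1`, and `σ`, `η`, `θ` as above. The points `α` of `ℝ ^ d` with the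
following property form a set of Hausdorff dimension at most `(d + (k (d + 2) - 1) η + k θ) / (1 + σ)`: for some admissible
patterns in `k` variables, some `D` and some `C`, `c` there are infinitely many `(p, q)` with
`|α_i - p_i / q| ≤ c q ^ (-1-σ)` for which, for a tuple `s` of comparable numbers near independent small forms in `(p, q)`, a
relation of degree at most `D` with integer coefficients at most `C ^ q` between the `x_j` and the multiple zeta values
`ζ(w_i(s))` is not a consequence of the stuffle product and of the relations between the `x_j` and the fronts. -/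
theorem result (t : ℕ) (x : Fin t → ℂ) (k : ℕ) (hk : 1 ≤ k) (d : ℕ) (σ η θ : ℝ) (hσ : 0 ≤ σ) (hη : 0 ≤ η) (hθ : 0 ≤ θ)
    (hθ1 : θ ≤ 1) :
    dimH {α : Fin d → ℝ | ∃ (r : ℕ) (w : Fin r → List (Letter k)) (D : ℕ), (∀ i, AdmissiblePattern (w i)) ∧
      ¬ Holds σ η θ (NotConsequence w x D) α} ≤ ENNReal.ofReal ((d + (k * (d + 2) - 1) * η + k * θ) / (1 + σ)) := by
  have h1 := Run7.h467.GA.metric hk (I := Σ r : ℕ, (Fin r → List (Letter k)) × ℕ)
    (fun i => ∀ j, AdmissiblePattern (i.2.1 j)) (fun i => NotConsequence i.2.1 x i.2.2)
    (fun i H H' s h hB => by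
      obtain ⟨P, h4, h5, h6⟩ := hB
      exact ⟨P, h4, fun m => (h5 m).trans h, h6⟩)
    (fun i hi κ => by
      obtain ⟨K, hK⟩ := ExceptionalTuples.result t i.2.1 hi i.2.2 κ
      exact ⟨K, fun C => hK C x⟩) d hσ hη hθ hθ1
  refine (dimH_mono ?_).trans h1
  rintro α ⟨r, w, D, hw, hH⟩
  exact ⟨⟨r, w, D⟩, hw, hH⟩

end Pool.Agent.Results.MP_154526_nt.GoodApproximations
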