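import Mathlib
import Pool.Agent.Run7.h123.LC.LinI

set_option autoImplicit false

/-!
# `ζ(7), ζ(9), ζ(11), ζ(13)` and the fields of numbers with simple expansions

Let `S` be an infinite set of integers and `K_b` the field generated by the real numbers with simple
expansions (`O(m)` different blocks of length `m`, `m ∈ S`) in bases dependent on `b`. For all bases `b`
independent of one base the four numbers `ζ(7), ζ(9), ζ(11), ζ(13)` are not all in `K_b`; over fields
`K_G`, `K_H`, `G ∩ H = 1`, one of the four numbers is not in the intersection of the two fields.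

The proof uses the simultaneous measure of irrationality of the four numbers of helper6 and his team
(`Pool/Agent/Run7/h6/ZM/Meas.lean`, result `MP_c2395a_nt/MeasureZeta7To13.lean`; over `ℚ` the statement
is contained in it) and the linear disjointness of the fields of hyperreal numbers belonging to `K_G` and
`K_H` (`Run7/h123/LC/LinM.lean`).
-/

namespace Pool.Agent.Results.MP_154526_nt.OneOfFourOverSimpleFields

/-- the number of different blocks of length `m` in the sequence `w` -/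
noncomputable def blocks {A : Type} (w : ℕ → A) (m : ℕ) : ℕ :=
  (Set.range fun i => fun j : Fin m => w (i + j)).ncard

/-- the digit with index `k + 1` after the point in the base `b` expansion of `x` -/
noncomputable def digit (b : ℕ) (x : ℝ) (k : ℕ) : ℤ := ⌊x * (b : ℝ) ^ (k + 1)⌋ % (b : ℤ)

/-- the sums of the series `∑ γ(w_0) ⋯ γ(w_{k-1}) c(w_k)`, where the `w_k` are in a finite set `A`,
`γ(a)` and `c(a)` are rational, `|γ(a)| < 1`, `|γ(a)|` is in `G` and the sequence `w` has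
at most `C m` different blocks of length `m`, for all `m ∈ S` -/
def Series (S : Set ℕ) (G : Subgroup ℚˣ) : Set ℝ :=
  {x | ∃ (A : Type) (_ : Finite A) (γ c : A → ℚ) (w : ℕ → A) (C : ℝ),
    (∀ a, ∃ u ∈ G, |γ a| = ((u : ℚˣ) : ℚ)) ∧ (∀ a, |γ a| < 1) ∧
    HasSum (fun n => (∏ k ∈ Finset.range n, (γ (w k) : ℝ)) * (c (w n) : ℝ)) x ∧
    ∀ m ∈ S, (blocks w m : ℝ) ≤ C * m}

/-- the field generated by `Series S G` -/
noncomputable def K (S : Set ℕ) (G : Subgroup ℚˣ) : Subfield ℝ := Subfield.closure (Series S G)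

/-- the group of the positive rational numbers `u` such that `u ^ m = b ^ k` for some integers
`m ≥ 1` and `k` -/
def group (b : ℕ) : Subgroup ℚˣ := Pool.Agent.Run7.h123.LC.rad b

lemma mem_group {b : ℕ} {u : ℚˣ} : u ∈ group b ↔ 0 < (u : ℚ) ∧
    ∃ (m : ℕ) (k : ℤ), 1 ≤ m ∧ (u : ℚ) ^ m = (b : ℚ) ^ k := Iff.rfl

/-- multiplicatively independent integers -/
def Independent {r : ℕ} (b : Fin r → ℕ) : Prop :=
  ∀ k : Fin r → ℤ, ∏ i, (b i : ℚ) ^ k i = 1 → k = 0

/-- for some `k < r` and multiplicatively independent `c_1, …, c_k ≥ 2`, `P b` is true for all `b ≥ 2`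
such that `c_1, …, c_k, b` are multiplicatively independent -/
def AllBut (r : ℕ) (P : ℕ → Prop) : Prop :=
  ∃ (k : ℕ) (c : Fin k → ℕ), k < r ∧ (∀ i, 2 ≤ c i) ∧ Independent c ∧
    ∀ b : ℕ, 2 ≤ b → Independent (Fin.snoc c b : Fin (k + 1) → ℕ) → P b

/-- the zeta value `ζ(i) = ∑ 1 / n^i` -/
noncomputable def zeta (i : ℕ) : ℝ := ∑' n : ℕ, 1 / ((n : ℝ) + 1) ^ i

open Pool.Agent.Run7.h123.LC in
theorem allBut {P : ℕ → Prop} {r : ℕ} (hr : 1 ≤ r)
    (h : ∀ c : Fin r → ℕ, (∀ i, 2 ≤ c i) → Independent c → ∃ i, P (c i)) : AllBut r P := by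
  obtain ⟨n, rfl⟩ : ∃ n, r = n + 1 := ⟨r - 1, by omega⟩
  obtain ⟨k, c, hk, hc, hi, hb⟩ := outside_rank (fun b => ¬ P b) n (fun c hc hi hall => by
    obtain ⟨i, hi⟩ := h c hc hi
    exact hall i hi)
  exact ⟨k, c, by omega, hc, hi, fun b hb2 hbi => not_not.1 (hb b hb2 hbi)⟩

/-- Let `S` be an infinite set of integers.

(1) There is `c ≥ 2` such that for all `b ≥ 2` multiplicatively independent of `c` one of the numbers
`ζ(7), ζ(9), ζ(11), ζ(13)` is not in `K S b`.

(2) If `G ∩ H = 1`, then one of these numbers is not in the intersection of `K S G` and `K S H`.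

(3) The field `K S b` contains the rational numbers and all real numbers which have, in some base
`d ≥ 2` with `d ^ m = b ^ k`, `m ≥ 1`, at most `C m` different blocks of `m` digits, `m ∈ S`, for some
`C`. -/
theorem result :
    (∀ S : Set ℕ, S.Infinite →
      AllBut 2 (fun b => ∃ j : ℕ, (j = 7 ∨ j = 9 ∨ j = 11 ∨ j = 13) ∧ zeta j ∉ K S (group b)) ∧
      ∀ G H : Subgroup ℚˣ, G ⊓ H = ⊥ → ∃ j : ℕ, (j = 7 ∨ j = 9 ∨ j = 11 ∨ j = 13) ∧
        ¬ (zeta j ∈ K S G ∧ zeta j ∈ K S H)) ∧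
    (∀ (S : Set ℕ) (b d m k : ℕ), 2 ≤ d → 1 ≤ m → d ^ m = b ^ k → ∀ x C : ℝ,
      (∀ m ∈ S, (blocks (digit d x) m : ℝ) ≤ C * m) → x ∈ K S (group b)) ∧
    (∀ (S : Set ℕ) (G : Subgroup ℚˣ) (x : ℚ), (x : ℝ) ∈ K S G) := by
  refine ⟨fun S hS => ?_, fun S b d m k hd hm h x C hC => ?_,
    fun S G x => SubfieldClass.ratCast_mem _ x⟩
  · have key : ∀ G H : Subgroup ℚˣ, G ⊓ H = ⊥ → ∃ j : ℕ, (j = 7 ∨ j = 9 ∨ j = 11 ∨ j = 13) ∧
        ¬ (zeta j ∈ K S G ∧ zeta j ∈ K S H) := by
      intro G H hGH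
      by_contra hcon
      push Not at hcon
      have h4 : ∀ j ∈ ({7, 9, 11, 13} : Finset ℕ), zeta j ∈ K S G ∧ zeta j ∈ K S H := fun j hj =>
        hcon j (by simpa using hj)
      exact Pool.Agent.Run7.h123.LC.zeta_four hS hGH (fun j hj => (h4 j hj).1)
        (fun j hj => (h4 j hj).2)
    refine ⟨?_, key⟩
    refine allBut (by norm_num) fun c hc hi => ?_
    have hi' : Pool.Agent.Run7.h123.LC.MInd ![c 0, c 1] := by
      have : ![c 0, c 1] = c := by
        funext i
        fin_cases i <;> rfl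
      rw [this]
      exact hi
    obtain ⟨j, hj, h⟩ := key (group (c 0)) (group (c 1))
      (Pool.Agent.Run7.h123.LC.rad_inf (hc 0) (hc 1) hi')
    by_cases h0 : zeta j ∈ K S (group (c 0))
    · exact ⟨1, j, hj, fun h1 => h ⟨h0, h1⟩⟩
    · exact ⟨0, j, hj, h0⟩
  · have hb0 : (d : ℚ) ≠ 0 := by
      have : d ≠ 0 := by omega
      exact_mod_cast this
    have hu : ∃ u ∈ group b, (u : ℚ) = d := by
      refine ⟨Units.mk0 (d : ℚ) hb0, mem_group.2 ⟨?_, m, (k : ℤ), hm, ?_⟩, rfl⟩
      · rw [Units.val_mk0]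
        positivity
      · rw [Units.val_mk0, zpow_natCast]
        exact_mod_cast h
    exact Pool.Agent.Run7.h123.LC.digits_mem hd hu hC

end Pool.Agent.Results.MP_154526_nt.OneOfFourOverSimpleFields
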